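import Mathlib

/-! The probability that a vertex is not captured by a centre. -/

namespace Pool.Agent.Helper32.SN

open Finset

set_option linter.unusedSectionVars false

section
variable {V : Type} [Fintype V] [DecidableEq V] {K L : ℕ}

/-- the vertex with neighbourhood `Nb` is not captured -/
def Bad (S Nb : Finset V) (ω : V → Fin K × Fin L) : Prop :=
  ∀ v ∈ Nb, (ω v).2.val = 0 → ∃ x ∈ S, (ω x).2.val = 0 ∧ (ω x).1 = (ω v).1

instance (S Nb : Finset V) (ω : V → Fin K × Fin L) : Decidable (Bad S Nb ω) := by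
  unfold Bad; infer_instance

/-- number of centres in `S` -/
def cc (S : Finset V) (s : V → Fin K × Fin L) : ℕ := (S.filter (fun x => (s x).2.val = 0)).card

/-- allowed values for a vertex of `Nb` -/
def TT (S : Finset V) (s : V → Fin K × Fin L) : Finset (Fin K × Fin L) :=
  univ.filter (fun r => r.2.val = 0 → ∃ x ∈ S, (s x).2.val = 0 ∧ (s x).1 = r.1)

lemma card_TT (hL : 0 < L) (S : Finset V) (s : V → Fin K × Fin L) :
    (TT S s).card ≤ K * (L - 1) + cc S s := by
  classical
  have h : TT S s ⊆ (univ.filter (fun r : Fin K × Fin L => r.2.val ≠ 0)) ∪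
      ((S.filter (fun x => (s x).2.val = 0)).image (fun x => ((s x).1, (⟨0, hL⟩ : Fin L)))) := by
    intro r hr
    unfold TT at hr
    rw [mem_filter] at hr
    rw [mem_union]
    by_cases h0 : r.2.val = 0
    · right
      obtain ⟨x, hx, h1, h2⟩ := hr.2 h0
      rw [mem_image]
      refine ⟨x, ?_, ?_⟩
      · rw [mem_filter]; exact ⟨hx, h1⟩
      · apply Prod.ext
        · exact h2
        · exact Fin.ext h0.symm
    · left
      rw [mem_filter]
      exact ⟨mem_univ _, h0⟩
  refine (card_le_card h).trans ((card_union_le _ _).trans ?_)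
  apply Nat.add_le_add
  · have h1 : (univ.filter (fun r : Fin K × Fin L => r.2.val ≠ 0)) =
        (univ : Finset (Fin K)) ×ˢ (univ.filter (fun l : Fin L => l.val ≠ 0)) := by
      ext r; simp
    rw [h1, card_product, card_univ, Fintype.card_fin]
    apply Nat.mul_le_mul_left
    have h2 : (univ.filter (fun l : Fin L => l.val ≠ 0)) = univ.erase (⟨0, hL⟩ : Fin L) := by
      ext l
      simp only [mem_filter, mem_univ, true_and, mem_erase, and_true, ne_eq, Fin.ext_iff]
    rw [h2, card_erase_of_mem (mem_univ _), card_univ, Fintype.card_fin]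
  · exact card_image_le

lemma card_agree (S : Finset V) (ω : V → Fin K × Fin L) :
    (univ.filter (fun s : V → Fin K × Fin L => ∀ x ∈ S, ω x = s x)).card =
      (K * L) ^ (Fintype.card V - S.card) := by
  classical
  have h : (univ.filter (fun s : V → Fin K × Fin L => ∀ x ∈ S, ω x = s x)) =
      Fintype.piFinset (fun v => if v ∈ S then {ω v} else univ) := by
    ext s
    rw [mem_filter, Fintype.mem_piFinset]
    simp only [mem_univ, true_and]
    apply forall_congr'
    intro v
    split_ifs with h
    · simp [h, eq_comm]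
    · simp [h]
  rw [h, Fintype.card_piFinset]
  have h2 : ∀ v : V, (if v ∈ S then ({ω v} : Finset (Fin K × Fin L)) else univ).card =
      if v ∈ S then 1 else K * L := by
    intro v
    split_ifs
    · simp
    · rw [card_univ, Fintype.card_prod, Fintype.card_fin, Fintype.card_fin]
  rw [prod_congr rfl (fun v _ => h2 v), prod_ite, prod_const_one, one_mul, prod_const]
  congr 1
  rw [← card_univ (α := V), ← card_filter_add_card_filter_not (s := (univ : Finset V)) (fun v => v ∈ S)]
  have h3 : (univ.filter (fun v => v ∈ S)) = S := by ext v; simp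
  rw [h3]
  omega

lemma card_fibre (hL : 0 < L) (S Nb : Finset V) (hd : Disjoint S Nb) (s : V → Fin K × Fin L) :
    (univ.filter (fun ω : V → Fin K × Fin L => (∀ x ∈ S, ω x = s x) ∧ Bad S Nb ω)).card ≤
      (K * (L - 1) + cc S s) ^ Nb.card * (K * L) ^ (Fintype.card V - S.card - Nb.card) := by
  classical
  have h : (univ.filter (fun ω : V → Fin K × Fin L => (∀ x ∈ S, ω x = s x) ∧ Bad S Nb ω)) ⊆
      Fintype.piFinset (fun v => if v ∈ S then {s v} else if v ∈ Nb then TT S s else univ) := by
    intro ω hω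
    rw [mem_filter] at hω
    obtain ⟨-, h1, h2⟩ := hω
    rw [Fintype.mem_piFinset]
    intro v
    split_ifs with h3 h4
    · rw [mem_singleton]; exact h1 v h3
    · unfold TT
      rw [mem_filter]
      refine ⟨mem_univ _, fun h5 => ?_⟩
      obtain ⟨x, hx, h6, h7⟩ := h2 v h4 h5
      refine ⟨x, hx, ?_, ?_⟩
      · rw [← h1 x hx]; exact h6
      · rw [← h1 x hx]; exact h7
    · exact mem_univ _
  refine (card_le_card h).trans ?_
  rw [Fintype.card_piFinset]
  have h2 : ∀ v : V, (if v ∈ S then ({s v} : Finset (Fin K × Fin L)) else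
      if v ∈ Nb then TT S s else univ).card ≤
      if v ∈ S then 1 else if v ∈ Nb then (K * (L - 1) + cc S s) else K * L := by
    intro v
    split_ifs
    · simp
    · exact card_TT hL S s
    · rw [card_univ, Fintype.card_prod, Fintype.card_fin, Fintype.card_fin]
  refine (prod_le_prod (fun _ _ => Nat.zero_le _) (fun v _ => h2 v)).trans (le_of_eq ?_)
  rw [prod_ite, prod_const_one, one_mul, prod_ite, prod_const, prod_const]
  have e1 : ((univ.filter (fun v => v ∉ S)).filter (fun v => v ∈ Nb)) = Nb := by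
    ext v
    simp only [mem_filter, mem_univ, true_and]
    constructor
    · exact fun h => h.2
    · intro h
      exact ⟨fun h' => (disjoint_left.mp hd) h' h, h⟩
  have e2 : ((univ.filter (fun v => v ∉ S)).filter (fun v => v ∉ Nb)).card =
      Fintype.card V - S.card - Nb.card := by
    have h3 : ((univ.filter (fun v => v ∉ S)).filter (fun v => v ∉ Nb)) = univ \ (S ∪ Nb) := by
      ext v
      simp only [mem_filter, mem_univ, true_and, mem_sdiff, mem_union, not_or]
    rw [h3, card_sdiff_of_subset (subset_univ _), card_univ, card_union_of_disjoint hd]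
    omega
  rw [e1, e2]

lemma sum_exp (hL : 0 < L) (S : Finset V) (θ : ℝ) :
    ∑ s : V → Fin K × Fin L, Real.exp (θ * cc S s) =
      ((K : ℝ) * L) ^ (Fintype.card V - S.card) *
        ((K : ℝ) * (L - 1) + K * Real.exp θ) ^ S.card := by
  classical
  have h1 : ∀ s : V → Fin K × Fin L, Real.exp (θ * cc S s) =
      ∏ v, (if v ∈ S then (if (s v).2.val = 0 then Real.exp θ else 1) else 1) := by
    intro s
    rw [prod_ite_mem, univ_inter, prod_ite, prod_const_one, mul_one, prod_const, ← Real.exp_nat_mul]
    unfold cc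
    rw [mul_comm]
  rw [sum_congr rfl (fun s _ => h1 s)]
  have h2 := (prod_univ_sum (κ := fun _ : V => Fin K × Fin L) (fun _ => univ)
    (fun v r => (if v ∈ S then (if r.2.val = 0 then Real.exp θ else 1) else 1)))
  rw [Fintype.piFinset_univ] at h2
  rw [← h2]
  have h3 : ∀ v : V, ∑ r : Fin K × Fin L,
      (if v ∈ S then (if r.2.val = 0 then Real.exp θ else 1) else 1) =
      if v ∈ S then ((K : ℝ) * (L - 1) + K * Real.exp θ) else (K : ℝ) * L := by
    intro v
    split_ifs
    · rw [Fintype.sum_prod_type]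
      have h4 : ∑ y : Fin L, (if y.val = 0 then Real.exp θ else 1) =
          Real.exp θ + (L - 1) := by
        obtain ⟨L', rfl⟩ : ∃ L', L = L' + 1 := ⟨L - 1, by omega⟩
        rw [Fin.sum_univ_succ]
        simp
      simp only [h4]
      rw [sum_const, card_univ, Fintype.card_fin, nsmul_eq_mul]
      ring
    · simp
  rw [prod_congr rfl (fun v _ => h3 v), prod_ite, prod_const, prod_const]
  have h5 : (univ.filter (fun v => v ∈ S)) = S := by ext v; simp
  have h6 : (univ.filter (fun v => v ∉ S)).card = Fintype.card V - S.card := by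
    have := card_filter_add_card_filter_not (s := (univ : Finset V)) (fun v => v ∈ S)
    rw [h5, card_univ] at this
    omega
  rw [h5, h6, mul_comm]

/-- The probability of not being captured. -/
theorem card_bad (hL : 0 < L) (hK : 0 < K) (S Nb : Finset V) (hd : Disjoint S Nb)
    (h1 : 4 * S.card ≤ K * L) (h2 : Nb.card ≤ K * L) :
    ((univ.filter (fun ω : V → Fin K × Fin L => Bad S Nb ω)).card : ℝ) ≤
      Real.exp (-(Nb.card / (2 * L))) * ((K : ℝ) * L) ^ (Fintype.card V) := by
  classical
  set d := Nb.card with hdd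
  set n := Fintype.card V with hn
  have hK0 : (0 : ℝ) < K := by exact_mod_cast hK
  have hL0 : (0 : ℝ) < L := by exact_mod_cast hL
  have hL1 : (1 : ℝ) ≤ L := by exact_mod_cast hL
  have hKL : (0 : ℝ) < (K : ℝ) * L := by positivity
  have hle : S.card + d ≤ n := by
    rw [hdd, hn, ← card_union_of_disjoint hd]
    exact card_le_univ _
  set B := univ.filter (fun ω : V → Fin K × Fin L => Bad S Nb ω) with hB
  -- double counting
  have hdc : B.card * (K * L) ^ (n - S.card) =
      ∑ s : V → Fin K × Fin L,
        (univ.filter (fun ω : V → Fin K × Fin L => (∀ x ∈ S, ω x = s x) ∧ Bad S Nb ω)).card := by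
    have e1 : ∀ s : V → Fin K × Fin L,
        (univ.filter (fun ω : V → Fin K × Fin L => (∀ x ∈ S, ω x = s x) ∧ Bad S Nb ω)).card =
        ∑ ω ∈ B, if (∀ x ∈ S, ω x = s x) then 1 else 0 := by
      intro s
      rw [card_eq_sum_ones, sum_filter, hB, sum_filter]
      refine sum_congr rfl fun ω _ => ?_
      by_cases ha : (∀ x ∈ S, ω x = s x) <;> by_cases hb : Bad S Nb ω <;> simp [ha, hb]
    rw [sum_congr rfl (fun s _ => e1 s), sum_comm]
    have e2 : ∀ ω ∈ B, ∑ s : V → Fin K × Fin L, (if (∀ x ∈ S, ω x = s x) then 1 else 0) =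
        (K * L) ^ (n - S.card) := by
      intro ω _
      rw [← sum_filter, ← card_eq_sum_ones]
      exact card_agree S ω
    rw [sum_congr rfl e2, sum_const, smul_eq_mul]
  have hbound : ∀ s : V → Fin K × Fin L,
      ((univ.filter (fun ω : V → Fin K × Fin L =>
        (∀ x ∈ S, ω x = s x) ∧ Bad S Nb ω)).card : ℝ) ≤
      ((K : ℝ) * L) ^ (n - S.card) * (Real.exp (-(d / L)) *
        Real.exp ((d / (K * L)) * cc S s)) := by
    intro s
    have h3 := card_fibre hL S Nb hd s
    have h4 : ((univ.filter (fun ω : V → Fin K × Fin L =>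
        (∀ x ∈ S, ω x = s x) ∧ Bad S Nb ω)).card : ℝ) ≤
        ((K : ℝ) * (L - 1) + cc S s) ^ d * ((K : ℝ) * L) ^ (n - S.card - d) := by
      have h5 : (((K * (L - 1) + cc S s) ^ Nb.card *
          (K * L) ^ (Fintype.card V - S.card - Nb.card) : ℕ) : ℝ) =
          ((K : ℝ) * (L - 1) + cc S s) ^ d * ((K : ℝ) * L) ^ (n - S.card - d) := by
        push_cast [Nat.cast_sub (show 1 ≤ L from hL)]
        rfl
      rw [← h5]
      exact_mod_cast h3
    refine h4.trans ?_
    have h6 : ((K : ℝ) * (L - 1) + cc S s) ≤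
        ((K : ℝ) * L) * Real.exp (-(1 / L) + (1 / (K * L)) * cc S s) := by
      have h7 := Real.add_one_le_exp (-(1 / (L : ℝ)) + (1 / (K * L)) * cc S s)
      calc ((K : ℝ) * (L - 1) + cc S s) =
          ((K : ℝ) * L) * ((-(1 / L) + (1 / (K * L)) * cc S s) + 1) := by
            field_simp; ring
        _ ≤ _ := mul_le_mul_of_nonneg_left h7 hKL.le
    have h8 : (0 : ℝ) ≤ (K : ℝ) * (L - 1) + cc S s := by
      have : (0 : ℝ) ≤ K * (L - 1) := mul_nonneg hK0.le (by linarith)
      positivity
    calc ((K : ℝ) * (L - 1) + cc S s) ^ d * ((K : ℝ) * L) ^ (n - S.card - d)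
        ≤ (((K : ℝ) * L) * Real.exp (-(1 / L) + (1 / (K * L)) * cc S s)) ^ d *
          ((K : ℝ) * L) ^ (n - S.card - d) :=
          mul_le_mul_of_nonneg_right (pow_le_pow_left₀ h8 h6 d) (by positivity)
      _ = ((K : ℝ) * L) ^ (n - S.card) * (Real.exp (-(d / L)) *
        Real.exp ((d / (K * L)) * cc S s)) := by
          rw [mul_pow, ← Real.exp_nat_mul, ← Real.exp_add]
          have e3 : n - S.card = d + (n - S.card - d) := by omega
          have e4 : ((K : ℝ) * L) ^ (n - S.card) =
              ((K : ℝ) * L) ^ d * ((K : ℝ) * L) ^ (n - S.card - d) := by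
            rw [← pow_add, ← e3]
          rw [e4]
          have e5 : (d : ℝ) * (-(1 / L) + (1 / (K * L)) * cc S s) =
              -(d / L) + (d / (K * L)) * cc S s := by ring
          rw [e5]
          ring
  have hsum : (B.card : ℝ) * ((K : ℝ) * L) ^ (n - S.card) ≤
      ((K : ℝ) * L) ^ (n - S.card) * (Real.exp (-(d / L)) *
        ∑ s : V → Fin K × Fin L, Real.exp ((d / (K * L)) * cc S s)) := by
    have h3 : ((B.card * (K * L) ^ (n - S.card) : ℕ) : ℝ) =
        (B.card : ℝ) * ((K : ℝ) * L) ^ (n - S.card) := by push_cast; rfl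
    rw [← h3, hdc]
    push_cast
    rw [mul_sum, mul_sum]
    exact sum_le_sum (fun s _ => hbound s)
  have hB2 : (B.card : ℝ) ≤ Real.exp (-(d / L)) *
        ∑ s : V → Fin K × Fin L, Real.exp ((d / (K * L)) * cc S s) := by
    rw [mul_comm (B.card : ℝ)] at hsum
    exact le_of_mul_le_mul_left hsum (by positivity)
  rw [sum_exp hL] at hB2
  set θ : ℝ := d / (K * L) with hθ
  have hθ0 : 0 ≤ θ := by positivity
  have hθ1 : θ ≤ 1 := by
    rw [hθ, div_le_one hKL]
    exact_mod_cast h2
  have hexp : Real.exp θ ≤ 1 + 2 * θ := by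
    have h3 := Real.abs_exp_sub_one_sub_id_le (x := θ) (by rw [abs_of_nonneg hθ0]; exact hθ1)
    have h4 := (abs_le.mp h3).2
    nlinarith
  have h9 : ((K : ℝ) * (L - 1) + K * Real.exp θ) ≤ ((K : ℝ) * L) * Real.exp (2 * θ / L) := by
    have h10 := Real.add_one_le_exp (2 * θ / (L : ℝ))
    calc ((K : ℝ) * (L - 1) + K * Real.exp θ) ≤ (K : ℝ) * (L - 1) + K * (1 + 2 * θ) := by
          have := mul_le_mul_of_nonneg_left hexp hK0.le
          linarith
      _ = ((K : ℝ) * L) * (2 * θ / L + 1) := by field_simp; ring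
      _ ≤ _ := mul_le_mul_of_nonneg_left h10 hKL.le
  have h11 : (0 : ℝ) ≤ (K : ℝ) * (L - 1) + K * Real.exp θ := by
    have : (0 : ℝ) ≤ K * (L - 1) := mul_nonneg hK0.le (by linarith)
    positivity
  calc (B.card : ℝ) ≤ Real.exp (-(d / L)) * (((K : ℝ) * L) ^ (n - S.card) *
        ((K : ℝ) * (L - 1) + K * Real.exp θ) ^ S.card) := hB2
    _ ≤ Real.exp (-(d / L)) * (((K : ℝ) * L) ^ (n - S.card) *
        (((K : ℝ) * L) * Real.exp (2 * θ / L)) ^ S.card) := by
        apply mul_le_mul_of_nonneg_left _ (Real.exp_pos _).le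
        exact mul_le_mul_of_nonneg_left (pow_le_pow_left₀ h11 h9 _) (by positivity)
    _ = (Real.exp (-(d / L)) * Real.exp (2 * θ / L * S.card)) * ((K : ℝ) * L) ^ n := by
        rw [mul_pow ((K : ℝ) * L) (Real.exp (2 * θ / L)) S.card, ← Real.exp_nat_mul]
        have e3 : n = (n - S.card) + S.card := by omega
        have e4 : ((K : ℝ) * L) ^ n =
            ((K : ℝ) * L) ^ (n - S.card) * ((K : ℝ) * L) ^ S.card := by
          rw [← pow_add, ← e3]
        rw [e4, mul_comm (2 * θ / (L : ℝ)) (S.card : ℝ)]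
        ring
    _ ≤ Real.exp (-(d / (2 * L))) * ((K : ℝ) * L) ^ n := by
        apply mul_le_mul_of_nonneg_right _ (by positivity)
        rw [← Real.exp_add]
        apply Real.exp_le_exp.mpr
        have h12 : 4 * (S.card : ℝ) ≤ K * L := by exact_mod_cast h1
        have h13 : 2 * θ / L * S.card ≤ d / (2 * L) := by
          rw [hθ]
          have : 2 * ((d : ℝ) / (K * L)) / L * S.card = (d / (2 * L)) * (4 * S.card / (K * L)) := by
            field_simp
            ring
          rw [this]
          have h14 : 4 * (S.card : ℝ) / (K * L) ≤ 1 := by rw [div_le_one hKL]; exact h12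
          have h15 : (0 : ℝ) ≤ d / (2 * L) := by positivity
          nlinarith
        have h16 : (d : ℝ) / L = 2 * (d / (2 * L)) := by field_simp
        rw [h16]
        linarith

end

end Pool.Agent.Helper32.SN
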