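import Pool.Agent.Helper32.SN.Indep
import Pool.Agent.Helper32.SN.Prob
import Pool.Agent.Helper55.LF.LLL

/-! Colouring the vertices with small second neighbourhoods. -/

namespace Pool.Agent.Helper32.SN

open Finset

set_option linter.unusedSectionVars false

section
variable {V : Type} [Fintype V] [DecidableEq V] (G : SimpleGraph V) [DecidableRel G.Adj]

/-- ends of paths of length two from `w` -/
def SS (w : V) : Finset V := univ.filter (fun x => ∃ u, G.Adj w u ∧ G.Adj u x)

/-- coordinates that matter for `w` -/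
def UU (w : V) : Finset V := SS G w ∪ G.neighborFinset w

lemma mem_SS {w x : V} : x ∈ SS G w ↔ ∃ u, G.Adj w u ∧ G.Adj u x := by
  unfold SS; rw [mem_filter]; simp

lemma mem_UU {w x : V} : x ∈ UU G w ↔ (∃ u, G.Adj w u ∧ G.Adj u x) ∨ G.Adj w x := by
  unfold UU; rw [mem_union, mem_SS]; simp

lemma UU_symm {w x : V} (h : x ∈ UU G w) : w ∈ UU G x := by
  rw [mem_UU] at h ⊢
  rcases h with ⟨u, h1, h2⟩ | h
  · exact Or.inl ⟨u, h2.symm, h1.symm⟩
  · exact Or.inr h.symm

lemma card_UU (Δ : ℕ) (hΔ : ∀ v, G.degree v ≤ Δ) (w : V) : (UU G w).card ≤ Δ + Δ ^ 2 := by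
  unfold UU
  refine (card_union_le _ _).trans ?_
  rw [add_comm]
  apply Nat.add_le_add
  · rw [SimpleGraph.card_neighborFinset_eq_degree]; exact hΔ w
  · have h : SS G w ⊆ (G.neighborFinset w).biUnion (fun u => G.neighborFinset u) := by
      intro x hx
      rw [mem_SS] at hx
      obtain ⟨u, h1, h2⟩ := hx
      rw [mem_biUnion]
      exact ⟨u, by simpa using h1, by simpa using h2⟩
    refine (card_le_card h).trans (card_biUnion_le.trans ?_)
    calc ∑ u ∈ G.neighborFinset w, (G.neighborFinset u).card ≤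
        ∑ _u ∈ G.neighborFinset w, Δ := by
          apply sum_le_sum
          intro u _
          rw [SimpleGraph.card_neighborFinset_eq_degree]; exact hΔ u
      _ = (G.neighborFinset w).card * Δ := by rw [sum_const, smul_eq_mul]
      _ ≤ Δ * Δ := by
          apply Nat.mul_le_mul_right
          rw [SimpleGraph.card_neighborFinset_eq_degree]; exact hΔ w
      _ = Δ ^ 2 := (sq Δ).symm

lemma bad_congr {K L : ℕ} (S Nb : Finset V) (ω ω' : V → Fin K × Fin L)
    (h : ∀ v ∈ S ∪ Nb, ω v = ω' v) (hb : Bad S Nb ω) : Bad S Nb ω' := by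
  intro v hv h0
  have e := h v (mem_union_right _ hv)
  rw [← e] at h0
  obtain ⟨x, hx, h1, h2⟩ := hb v hv h0
  have e' := h x (mem_union_left _ hx)
  refine ⟨x, hx, ?_, ?_⟩
  · rw [← e']; exact h1
  · rw [← e', ← e]; exact h2

theorem chi_le (htri : ∀ x y z, G.Adj x y → G.Adj y z → G.Adj x z → False)
    (W : Finset V) (Δ K L : ℕ) (hΔ : ∀ v, G.degree v ≤ Δ) (hL : 0 < L) (hK : 0 < K)
    (hS : ∀ w ∈ W, 4 * (SS G w).card ≤ K * L) (hKL : Δ ≤ K * L)
    (hp : ∀ w ∈ W, Real.exp (-((G.degree w : ℝ) / (2 * L))) *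
      ((((Δ + Δ ^ 2) * (Δ + Δ ^ 2) + 1 : ℕ)) : ℝ) ≤ 1 / 4) :
    ∃ ψ : V → Fin K, ∀ u ∈ W, ∀ v ∈ W, G.Adj u v → ψ u ≠ ψ v := by
  classical
  have : Nonempty (Fin K × Fin L) := ⟨(⟨0, hK⟩, ⟨0, hL⟩)⟩
  set A : {w // w ∈ W} → Set (V → Fin K × Fin L) := fun w =>
    {ω | Bad (SS G w.1) (G.neighborFinset w.1) ω} with hA
  set nb : {w // w ∈ W} → {w // w ∈ W} → Prop := fun i j => ¬ Disjoint (UU G i.1) (UU G j.1)
    with hnb
  have hΩ : (0 : ℝ) < Fintype.card (V → Fin K × Fin L) := by exact_mod_cast Fintype.card_pos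
  -- probabilities
  have hprob : ∀ w : {w // w ∈ W}, ((A w).ncard : ℝ) / Fintype.card (V → Fin K × Fin L) ≤
      Real.exp (-((G.degree w.1 : ℝ) / (2 * L))) := by
    intro w
    have hd : Disjoint (SS G w.1) (G.neighborFinset w.1) := by
      rw [disjoint_left]
      intro x hx hx'
      rw [mem_SS] at hx
      obtain ⟨u, h1, h2⟩ := hx
      exact htri w.1 u x h1 h2 (by simpa using hx')
    have h1 := card_bad hL hK (SS G w.1) (G.neighborFinset w.1) hd (hS w.1 w.2)
      (by rw [SimpleGraph.card_neighborFinset_eq_degree]; exact (hΔ w.1).trans hKL)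
    rw [SimpleGraph.card_neighborFinset_eq_degree] at h1
    have h2 : (A w).ncard = (univ.filter (fun ω : V → Fin K × Fin L =>
        Bad (SS G w.1) (G.neighborFinset w.1) ω)).card := by
      rw [Set.ncard_eq_toFinset_card']
      congr 1
      ext ω
      simp [hA]
    have h3 : ((Fintype.card (V → Fin K × Fin L) : ℕ) : ℝ) = ((K : ℝ) * L) ^ (Fintype.card V) := by
      rw [Fintype.card_fun, Fintype.card_prod, Fintype.card_fin, Fintype.card_fin]
      push_cast
      rfl
    rw [div_le_iff₀ hΩ, h2, h3]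
    exact h1
  have hmain := Pool.Agent.Helper55.LF.lll A nb ?_ ?_ _ (le_refl _)
  · have hpos : 0 < ({ω | ∀ i, ω ∉ A i} : Set (V → Fin K × Fin L)).ncard := by
      by_contra hcon
      have h0 : ({ω | ∀ i, ω ∉ A i} : Set (V → Fin K × Fin L)).ncard = 0 := by omega
      rw [h0] at hmain
      have : 0 < Real.exp (-4 * ∑ i, ((A i).ncard : ℝ) / Fintype.card (V → Fin K × Fin L)) *
          Fintype.card (V → Fin K × Fin L) := mul_pos (Real.exp_pos _) hΩ
      push_cast at hmain
      linarith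
    obtain ⟨ω, hω⟩ := (Set.ncard_pos (Set.toFinite _)).mp hpos
    have hgood : ∀ w : {w // w ∈ W}, ∃ v, G.Adj w.1 v ∧ (ω v).2.val = 0 ∧
        ∀ x, x ∈ SS G w.1 → (ω x).2.val = 0 → (ω x).1 ≠ (ω v).1 := by
      intro w
      have h1 : ¬ Bad (SS G w.1) (G.neighborFinset w.1) ω := hω w
      unfold Bad at h1
      push Not at h1
      obtain ⟨v, hv, h2, h3⟩ := h1
      exact ⟨v, by simpa using hv, h2, h3⟩
    choose cen hc1 hc2 hc3 using hgood
    refine ⟨fun w => if h : w ∈ W then (ω (cen ⟨w, h⟩)).1 else ⟨0, hK⟩, ?_⟩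
    intro u hu v hv huv heq
    simp only [hu, hv, dite_true] at heq
    -- the centre of `v` is at distance two from `u`
    have h1 : cen ⟨v, hv⟩ ∈ SS G u := by
      rw [mem_SS]
      exact ⟨v, huv, hc1 ⟨v, hv⟩⟩
    exact hc3 ⟨u, hu⟩ (cen ⟨v, hv⟩) h1 (hc2 ⟨v, hv⟩) heq.symm
  · intro i T hT
    have h1 := indep (UU G i.1) (fun ω : V → Fin K × Fin L => ω ∈ A i)
      (fun ω => ∀ j ∈ T, ω ∉ A j) ?_ ?_
    · exact h1
    · intro ω ω' h hb
      exact bad_congr _ _ ω ω' h hb
    · intro ω ω' h hb j hj hb'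
      apply hb j hj
      apply bad_congr _ _ ω' ω _ hb'
      intro v hv
      have hdis : Disjoint (UU G i.1) (UU G j.1) := by
        by_contra hcon
        exact hT j hj hcon
      exact (h v (fun hv' => (disjoint_left.mp hdis) hv' hv)).symm
  · intro i T hT
    set D := (Δ + Δ ^ 2) * (Δ + Δ ^ 2) + 1 with hD
    have hcard : T.card ≤ D := by
      have h1 : T.map ⟨Subtype.val, Subtype.val_injective⟩ ⊆
          ((UU G i.1).biUnion (fun y => UU G y)) ∪ {i.1} := by
        intro x hx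
        rw [mem_map] at hx
        obtain ⟨j, hj, rfl⟩ := hx
        rw [mem_union, mem_biUnion, mem_singleton]
        rcases hT j hj with h2 | h2
        · left
          have h3 : ¬ Disjoint (UU G i.1) (UU G j.1) := h2
          rw [not_disjoint_iff] at h3
          obtain ⟨y, hy1, hy2⟩ := h3
          exact ⟨y, hy1, UU_symm G hy2⟩
        · right
          rw [h2]
          rfl
      have h2 := card_le_card h1
      rw [card_map] at h2
      refine h2.trans ((card_union_le _ _).trans ?_)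
      rw [card_singleton, hD]
      apply Nat.add_le_add_right
      refine card_biUnion_le.trans ?_
      calc ∑ y ∈ UU G i.1, (UU G y).card ≤ ∑ _y ∈ UU G i.1, (Δ + Δ ^ 2) :=
            sum_le_sum (fun y _ => card_UU G Δ hΔ y)
        _ = (UU G i.1).card * (Δ + Δ ^ 2) := by rw [sum_const, smul_eq_mul]
        _ ≤ _ := Nat.mul_le_mul_right _ (card_UU G Δ hΔ i.1)
    have hDpos : (0 : ℝ) < D := by
      have : 0 < D := by rw [hD]; omega
      exact_mod_cast this
    calc ∑ j ∈ T, ((A j).ncard : ℝ) / Fintype.card (V → Fin K × Fin L)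
        ≤ ∑ _j ∈ T, (1 / 4) / (D : ℝ) := by
          apply sum_le_sum
          intro j _
          refine (hprob j).trans ?_
          rw [le_div_iff₀ hDpos]
          exact hp j.1 j.2
      _ = T.card * ((1 / 4) / (D : ℝ)) := by rw [sum_const, nsmul_eq_mul]
      _ ≤ D * ((1 / 4) / (D : ℝ)) := by
          apply mul_le_mul_of_nonneg_right _ (by positivity)
          exact_mod_cast hcard
      _ = 1 / 4 := by field_simp

end

end Pool.Agent.Helper32.SN
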