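import Mathlib

/-! Independence of events depending on disjoint sets of coordinates (counting form). -/

namespace Pool.Agent.Helper32.SN

open Finset

set_option linter.unusedSectionVars false

section
variable {V R : Type} [Fintype V] [DecidableEq V] [Fintype R]

/-- take the coordinates in `U` from `ω`, the others from `ω'` -/
def mix (U : Finset V) (ω ω' : V → R) : V → R := fun v => if v ∈ U then ω v else ω' v

lemma mix_mem {U : Finset V} {ω ω' : V → R} {v : V} (h : v ∈ U) : mix U ω ω' v = ω v := by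
  unfold mix; rw [if_pos h]

lemma mix_notMem {U : Finset V} {ω ω' : V → R} {v : V} (h : v ∉ U) : mix U ω ω' v = ω' v := by
  unfold mix; rw [if_neg h]

lemma mix_mix (U : Finset V) (ω ω' : V → R) : mix U (mix U ω ω') (mix U ω' ω) = ω := by
  funext v
  by_cases h : v ∈ U
  · rw [mix_mem h, mix_mem h]
  · rw [mix_notMem h, mix_notMem h]

theorem indep (U : Finset V) (P Q : (V → R) → Prop)
    (hP : ∀ ω ω' : V → R, (∀ v ∈ U, ω v = ω' v) → P ω → P ω')
    (hQ : ∀ ω ω' : V → R, (∀ v, v ∉ U → ω v = ω' v) → Q ω → Q ω') :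
    (({ω | P ω ∧ Q ω} : Set (V → R)).ncard : ℝ) * Fintype.card (V → R) ≤
      (({ω | P ω} : Set (V → R)).ncard : ℝ) * (({ω | Q ω} : Set (V → R)).ncard : ℝ) := by
  classical
  have h1 : ({ω | P ω ∧ Q ω} : Set (V → R)).ncard * Fintype.card (V → R) ≤
      ({ω | P ω} : Set (V → R)).ncard * ({ω | Q ω} : Set (V → R)).ncard := by
    rw [← Nat.card_eq_fintype_card, ← Set.ncard_univ, ← Set.ncard_prod, ← Set.ncard_prod]
    apply Set.ncard_le_ncard_of_injOn (fun p => (mix U p.1 p.2, mix U p.2 p.1))
    · rintro ⟨ω, ω'⟩ ⟨⟨h1, h2⟩, -⟩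
      refine ⟨?_, ?_⟩
      · exact hP ω _ (fun v hv => (mix_mem hv).symm) h1
      · exact hQ ω _ (fun v hv => (mix_notMem hv).symm) h2
    · rintro ⟨a, b⟩ _ ⟨c, d⟩ _ h
      have h3 : mix U a b = mix U c d := congrArg Prod.fst h
      have h4 : mix U b a = mix U d c := congrArg Prod.snd h
      apply Prod.ext
      · show a = c
        rw [← mix_mix U a b, h3, h4, mix_mix]
      · show b = d
        rw [← mix_mix U b a, h3, h4, mix_mix]
  exact_mod_cast h1

end

end Pool.Agent.Helper32.SN
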